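import Pool.Agent.H25.ZTwo

set_option autoImplicit false

namespace Pool.Agent.Results.MP_2b4c46_gt.No

open Pool.Agent.H25.ZTop

theorem result : ∃ b : ℕ → ℕ, IsD b ∧ Ch (sb b) = Hb b ∧
    ∃ s : TopologicalSpace ℤ, LQC s ∧ Ch s = Hb b ∧
      ∃ U : Set ℤ, @IsOpen ℤ s U ∧ ¬ @IsOpen ℤ (sb b) U := by
  refine ⟨bb, bb_dinf.1, ch_sb, ss, ss_lqc, ch_ss, ?_⟩
  by_contra h
  exact not_le_ss fun U hU => by_contra fun e => h ⟨U, hU, e⟩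

end Pool.Agent.Results.MP_2b4c46_gt.No
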